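import Mathlib

/-!
The group `HG` of triples `(z, c, k)`, `z, c ∈ Kˣ`, `k ∈ ℤ`, acting on Laurent polynomials.
-/

set_option autoImplicit false

namespace Pool.Agent.Helper26.UA

/-- The algebraic closure of the field with three elements. -/
abbrev K : Type := AlgebraicClosure (ZMod 3)

/-- The group of all operators `f(T) ↦ z T^k f(cT)`. -/
@[ext] structure HG where
  z : Kˣ
  c : Kˣ
  k : ℤ

namespace HG

noncomputable instance : Mul HG := ⟨fun x y => ⟨x.z * y.z * x.c ^ y.k, x.c * y.c, x.k + y.k⟩⟩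
noncomputable instance : One HG := ⟨⟨1, 1, 0⟩⟩
noncomputable instance : Inv HG := ⟨fun x => ⟨x.z⁻¹ * x.c ^ x.k, x.c⁻¹, -x.k⟩⟩

@[simp] theorem mul_z (x y : HG) : (x * y).z = x.z * y.z * x.c ^ y.k := rfl
@[simp] theorem mul_c (x y : HG) : (x * y).c = x.c * y.c := rfl
@[simp] theorem mul_k (x y : HG) : (x * y).k = x.k + y.k := rfl
@[simp] theorem one_z : (1 : HG).z = 1 := rfl
@[simp] theorem one_c : (1 : HG).c = 1 := rfl
@[simp] theorem one_k : (1 : HG).k = 0 := rfl
@[simp] theorem inv_z (x : HG) : (x⁻¹).z = x.z⁻¹ * x.c ^ x.k := rfl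
@[simp] theorem inv_c (x : HG) : (x⁻¹).c = x.c⁻¹ := rfl
@[simp] theorem inv_k (x : HG) : (x⁻¹).k = -x.k := rfl

noncomputable instance : Group HG := Group.ofLeftAxioms
  (by
    intro x y w
    ext1
    · simp only [mul_z, mul_c, mul_k, mul_zpow, zpow_add]
      simp only [mul_comm, mul_left_comm, mul_assoc]
    · simp [mul_assoc]
    · simp [add_assoc])
  (by
    intro x
    ext1 <;> simp)
  (by
    intro x
    ext1 <;> simp)

end HG

/-- The module of Laurent polynomials. -/
abbrev V : Type := ℤ →₀ K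

/-- The basis vector. -/
noncomputable def D (j : ℤ) : V := Finsupp.single j 1

theorem D_ne (j : ℤ) : D j ≠ 0 := by
  unfold D
  simp

/-- The action. -/
noncomputable def act (g : HG) : Module.End K V :=
  Finsupp.linearCombination K (fun j : ℤ => ((g.z * g.c ^ j : Kˣ) : K) • D (j + g.k))

theorem act_D (g : HG) (j : ℤ) : act g (D j) = ((g.z * g.c ^ j : Kˣ) : K) • D (j + g.k) := by
  unfold act
  rw [D, Finsupp.linearCombination_single, one_smul]

/-- Two endomorphisms agreeing on the basis are equal. -/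
theorem end_ext {f g : Module.End K V} (h : ∀ j, f (D j) = g (D j)) : f = g := by
  apply Finsupp.lhom_ext'
  intro j
  apply LinearMap.ext_ring
  exact h j

theorem act_one : act 1 = 1 := by
  apply end_ext
  intro j
  rw [act_D]
  simp

theorem act_mul (g h : HG) : act (g * h) = act g * act h := by
  apply end_ext
  intro j
  have e1 : (g * h).z * (g * h).c ^ j = h.z * h.c ^ j * (g.z * g.c ^ (j + h.k)) := by
    rw [HG.mul_z, HG.mul_c, mul_zpow, zpow_add]
    simp only [mul_comm, mul_left_comm, mul_assoc]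
  have e2 : j + (g * h).k = j + h.k + g.k := by rw [HG.mul_k]; ring
  rw [Module.End.mul_apply, act_D, act_D, map_smul, act_D, smul_smul, ← Units.val_mul, e1, e2]

/-- The action as a homomorphism. -/
noncomputable def rho : HG →* Module.End K V where
  toFun := act
  map_one' := act_one
  map_mul' := act_mul

/-- The integral group ring. -/
abbrev RR : Type := MonoidAlgebra ℤ HG

/-- The action of the group ring. -/
noncomputable def Phi : RR →ₐ[ℤ] Module.End K V :=
  MonoidAlgebra.lift ℤ (Module.End K V) HG rho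

theorem Phi_of (g : HG) : Phi (MonoidAlgebra.of ℤ HG g) = act g := by
  unfold Phi
  rw [MonoidAlgebra.lift_of]
  rfl

/-- The image ring. -/
noncomputable abbrev Rb : Subring (Module.End K V) := Phi.toRingHom.range

/-- group elements in the image ring -/
noncomputable def el (g : HG) : Rb := ⟨act g, MonoidAlgebra.of ℤ HG g, Phi_of g⟩

/-- translations -/
noncomputable def T (k : ℤ) : Rb := el ⟨1, 1, k⟩

theorem T_D (k j : ℤ) : ((T k : Rb) : Module.End K V) (D j) = D (j + k) := by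
  show act ⟨1, 1, k⟩ (D j) = _
  rw [act_D]
  simp

/-- The moduli. -/
def Nn (n : ℕ) : ℕ := ∏ i ∈ Finset.range n, ((3 * i + 1) * (3 * i + 2))

theorem Nn_succ (n : ℕ) : Nn (n + 1) = Nn n * ((3 * n + 1) * (3 * n + 2)) := by
  unfold Nn
  rw [Finset.prod_range_succ]

theorem Nn_pos (n : ℕ) : 0 < Nn n := Finset.prod_pos fun i _ => by positivity

theorem Nn_lt_succ (n : ℕ) : Nn n < Nn (n + 1) := by
  rw [Nn_succ]
  have h := Nn_pos n
  have : 2 ≤ (3 * n + 1) * (3 * n + 2) := by nlinarith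
  nlinarith

theorem Nn_strictMono : StrictMono Nn := strictMono_nat_of_lt_succ Nn_lt_succ

theorem Nn_dvd {n m : ℕ} (h : n ≤ m) : Nn n ∣ Nn m :=
  Finset.prod_dvd_prod_of_subset _ _ _ (Finset.range_mono h)

theorem Nn_ne (n : ℕ) : ((Nn n : ℕ) : K) ≠ 0 := by
  induction n with
  | zero => simp [Nn]
  | succ n ih =>
    rw [Nn_succ]
    have h3 : ((3 : ℕ) : K) = 0 := CharP.cast_eq_zero K 3
    have h1 : (((3 * n + 1 : ℕ)) : K) = 1 := by
      push_cast at h3 ⊢
      rw [h3]; simp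
    have h2 : (((3 * n + 2 : ℕ)) : K) = 2 := by
      push_cast at h3 ⊢
      rw [h3]; simp
    have h4 : (2 : K) ≠ 0 := by
      intro h
      have : (1 : K) = 0 := by
        have h5 : (3 : K) = 0 := by exact_mod_cast h3
        calc (1 : K) = 3 - 2 := by norm_num
          _ = 0 := by rw [h5, h]; simp
      exact one_ne_zero this
    rw [Nat.cast_mul, Nat.cast_mul, h1, h2]
    exact mul_ne_zero ih (mul_ne_zero one_ne_zero h4)

theorem dvd_Nn {m : ℕ} (h : ¬ 3 ∣ m) : ∃ n, m ∣ Nn n := by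
  have h1 : m % 3 = 1 ∨ m % 3 = 2 := by omega
  refine ⟨m / 3 + 1, ?_⟩
  rw [Nn_succ]
  apply Dvd.dvd.mul_left
  rcases h1 with h1 | h1
  · apply Dvd.dvd.mul_right
    have : 3 * (m / 3) + 1 = m := by omega
    rw [this]
  · apply Dvd.dvd.mul_left
    have : 3 * (m / 3) + 2 = m := by omega
    rw [this]

/-- Every unit of `K` has finite order prime to 3. -/
theorem exists_pow_eq_one (c : Kˣ) : ∃ m : ℕ, ¬ 3 ∣ m ∧ c ^ m = 1 := by
  have hint : IsIntegral (ZMod 3) (c : K) := (AlgebraicClosure.isAlgebraic (ZMod 3)).isIntegral.isIntegral _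
  let F := IntermediateField.adjoin (ZMod 3) {(c : K)}
  have hfd : FiniteDimensional (ZMod 3) F := IntermediateField.adjoin.finiteDimensional hint
  have hfin : Finite F := Module.finite_of_finite (ZMod 3)
  have : Fintype F := Fintype.ofFinite F
  set x : F := ⟨(c : K), IntermediateField.mem_adjoin_simple_self (ZMod 3) (c : K)⟩ with hx
  have hx0 : x ≠ 0 := by
    intro h
    exact c.ne_zero (congrArg Subtype.val h)
  have h1 : x ^ (Fintype.card F - 1) = 1 := FiniteField.pow_card_sub_one_eq_one x hx0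
  refine ⟨Fintype.card F - 1, ?_, ?_⟩
  · have h2 : Fintype.card F = 3 ^ (Module.finrank (ZMod 3) F) := by
      rw [Module.card_eq_pow_finrank (K := ZMod 3) (V := F), ZMod.card]
    have h3 : 0 < Module.finrank (ZMod 3) F := Module.finrank_pos
    have h4 : 3 ∣ Fintype.card F := by
      rw [h2]
      exact dvd_pow_self 3 h3.ne'
    have h5 : 0 < Fintype.card F := Fintype.card_pos
    omega
  · apply Units.ext
    have := congrArg Subtype.val h1
    simpa using this

theorem exists_Nn_pow (c : Kˣ) : ∃ n, ∀ j : ℤ, (Nn n : ℤ) ∣ j → c ^ j = 1 := by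
  obtain ⟨m, hm, hc⟩ := exists_pow_eq_one c
  obtain ⟨n, hn⟩ := dvd_Nn hm
  refine ⟨n, fun j hj => ?_⟩
  have : (m : ℤ) ∣ j := dvd_trans (by exact_mod_cast hn) hj
  obtain ⟨l, rfl⟩ := this
  rw [zpow_mul, zpow_natCast, hc, one_zpow]

/-- Equivariance at some scale. -/
theorem equiv_scale (r : RR) : ∃ n, ∀ j : ℤ, (Nn n : ℤ) ∣ j →
    Phi r (D j) = ((T j : Rb) : Module.End K V) (Phi r (D 0)) := by
  induction r using MonoidAlgebra.induction_on with
  | of g =>
    obtain ⟨n, hn⟩ := exists_Nn_pow g.c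
    refine ⟨n, fun j hj => ?_⟩
    rw [Phi_of, act_D, act_D, map_smul, T_D, hn j hj, zpow_zero]
    congr 2
    ring
  | add x y hx hy =>
    obtain ⟨n, hn⟩ := hx
    obtain ⟨m, hm⟩ := hy
    refine ⟨max n m, fun j hj => ?_⟩
    rw [map_add, LinearMap.add_apply, LinearMap.add_apply, map_add,
      hn j (dvd_trans (by exact_mod_cast Nn_dvd (le_max_left n m)) hj),
      hm j (dvd_trans (by exact_mod_cast Nn_dvd (le_max_right n m)) hj)]
  | smul z x hx =>
    obtain ⟨n, hn⟩ := hx
    refine ⟨n, fun j hj => ?_⟩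
    rw [map_smul, LinearMap.smul_apply, LinearMap.smul_apply, hn j hj]
    rw [map_zsmul]

/-- The projection to the multiples of `Nn n`. -/
theorem exists_B (n : ℕ) : ∃ b : Rb, ∀ j : ℤ, ((b : Rb) : Module.End K V) (D j) =
    if (Nn n : ℤ) ∣ j then D j else 0 := by
  have : NeZero ((Nn n : ℕ) : K) := ⟨Nn_ne n⟩
  have hpos := Nn_pos n
  have : NeZero (Nn n) := ⟨hpos.ne'⟩
  obtain ⟨ζ, hζ⟩ := HasEnoughRootsOfUnity.exists_primitiveRoot K (Nn n)
  have hζu : IsUnit ζ := hζ.isUnit hpos.ne'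
  obtain ⟨w, rfl⟩ := hζu
  have hw : w ^ (Nn n) = 1 := by
    apply Units.ext
    simpa using hζ.pow_eq_one
  let a : Kˣ := Units.mk0 ((Nn n : ℕ) : K) (Nn_ne n)
  refine ⟨∑ i ∈ Finset.range (Nn n), el ⟨a⁻¹, w ^ i, 0⟩, fun j => ?_⟩
  have h1 : ((∑ i ∈ Finset.range (Nn n), el ⟨a⁻¹, w ^ i, 0⟩ : Rb) : Module.End K V) (D j) =
      (∑ i ∈ Finset.range (Nn n), (((w ^ j : Kˣ) : K)) ^ i) • (((a⁻¹ : Kˣ) : K) • D j) := by
    rw [AddSubmonoidClass.coe_finsetSum, LinearMap.sum_apply, Finset.sum_smul]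
    refine Finset.sum_congr rfl fun i _ => ?_
    show act ⟨a⁻¹, w ^ i, 0⟩ (D j) = _
    rw [act_D, smul_smul, add_zero, Units.val_mul, mul_comm, ← Units.val_pow_eq_pow_val]
    congr 3
    rw [← zpow_natCast, ← zpow_natCast, ← zpow_mul, ← zpow_mul, mul_comm]
  rw [h1]
  split_ifs with hd
  · obtain ⟨l, rfl⟩ := hd
    have h2 : w ^ ((Nn n : ℤ) * l) = 1 := by
      rw [zpow_mul, zpow_natCast, hw, one_zpow]
    rw [h2, smul_smul]
    simp only [Units.val_one, one_pow, Finset.sum_const, Finset.card_range, nsmul_eq_mul, mul_one]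
    have h3 : ((Nn n : ℕ) : K) * ((a⁻¹ : Kˣ) : K) = 1 := by
      have : ((Nn n : ℕ) : K) = ((a : Kˣ) : K) := rfl
      rw [this, Units.mul_inv]
    rw [h3, one_smul]
  · have h2 : ((w ^ j : Kˣ) : K) ≠ 1 := by
      intro h
      apply hd
      rw [← hζ.zpow_eq_one_iff_dvd, ← Units.val_zpow_eq_zpow_val, h]
    rw [geom_sum_eq h2]
    have h3 : ((w ^ j : Kˣ) : K) ^ (Nn n) = 1 := by
      rw [← Units.val_pow_eq_pow_val, ← zpow_natCast, ← zpow_mul, mul_comm, zpow_mul,
        zpow_natCast, hw, one_zpow, Units.val_one]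
    rw [h3, sub_self, zero_div, zero_smul]

end Pool.Agent.Helper26.UA
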