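import Pool.Agent.Helper26.UA.General
import Pool.Agent.Helper26.UA.Heis

set_option autoImplicit false

namespace Pool.Agent.Helper26.UA

/-- the projection to the multiples of `Nn n` -/
noncomputable def B (n : ℕ) : Rb := (exists_B n).choose

theorem B_D (n : ℕ) (j : ℤ) : ((B n : Rb) : Module.End K V) (D j) =
    if (Nn n : ℤ) ∣ j then D j else 0 := (exists_B n).choose_spec j

/-- the idempotents -/
noncomputable def pp (i : ℕ) : Rb := T (Nn i) * B (i + 1) * T (-(Nn i))

theorem mul_apply' (a b : Rb) (v : V) : ((a * b : Rb) : Module.End K V) v =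
    (a : Module.End K V) ((b : Module.End K V) v) := rfl

theorem pp_D (i : ℕ) (j : ℤ) : ((pp i : Rb) : Module.End K V) (D j) =
    if (Nn (i + 1) : ℤ) ∣ j - Nn i then D j else 0 := by
  unfold pp
  rw [mul_apply', mul_apply', T_D, B_D, ← sub_eq_add_neg]
  split_ifs
  · rw [T_D]
    congr 1
    ring
  · rw [map_zero]

theorem rb_ext {a b : Rb} (h : ∀ j, (a : Module.End K V) (D j) = (b : Module.End K V) (D j)) :
    a = b := Subtype.ext (end_ext h)

theorem pp_idem (i : ℕ) : pp i * pp i = pp i := by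
  apply rb_ext
  intro j
  rw [mul_apply', pp_D]
  split_ifs with h
  · rw [pp_D, if_pos h]
  · rw [map_zero]

theorem disj {i j : ℕ} (hij : i ≠ j) (a : ℤ) (h1 : (Nn (i + 1) : ℤ) ∣ a - Nn i)
    (h2 : (Nn (j + 1) : ℤ) ∣ a - Nn j) : False := by
  have key : ∀ i j : ℕ, i < j → (Nn (i + 1) : ℤ) ∣ a - Nn i → (Nn (j + 1) : ℤ) ∣ a - Nn j →
      False := by
    intro i j hlt h1 h2
    have h3 : (Nn (i + 1) : ℤ) ∣ Nn j := by exact_mod_cast Nn_dvd (by omega : i + 1 ≤ j)
    have h4 : (Nn (i + 1) : ℤ) ∣ Nn (j + 1) := by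
      exact_mod_cast Nn_dvd (by omega : i + 1 ≤ j + 1)
    have h5 : (Nn (i + 1) : ℤ) ∣ a := by
      have := dvd_add (dvd_trans h4 h2) h3
      rwa [sub_add_cancel] at this
    have h6 : (Nn (i + 1) : ℤ) ∣ Nn i := by
      have := dvd_sub h5 h1
      rwa [sub_sub_cancel] at this
    have h7 : Nn (i + 1) ∣ Nn i := by exact_mod_cast h6
    exact absurd (Nat.le_of_dvd (Nn_pos i) h7) (not_le_of_gt (Nn_lt_succ i))
  rcases lt_or_gt_of_ne hij with h | h
  · exact key i j h h1 h2
  · exact key j i h h2 h1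

theorem pp_orth (i j : ℕ) (h : i ≠ j) : pp i * pp j = 0 := by
  apply rb_ext
  intro a
  rw [mul_apply', pp_D]
  show _ = (0 : V)
  split_ifs with h1
  · rw [pp_D, if_neg]
    intro h2
    exact disj h a h2 h1
  · rw [map_zero]

theorem coe_sum_apply {ι : Type} (s : Finset ι) (f : ι → Rb) (v : V) :
    ((∑ i ∈ s, f i : Rb) : Module.End K V) v = ∑ i ∈ s, ((f i : Rb) : Module.End K V) v := by
  rw [AddSubmonoidClass.coe_finsetSum, LinearMap.sum_apply]

theorem one_eq (i : ℕ) : (1 : Rb) = ∑ j ∈ Finset.range (Nn (i + 1)),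
    T ((j : ℤ) - Nn i) * pp i * T (Nn i - (j : ℤ)) := by
  apply rb_ext
  intro a
  rw [coe_sum_apply]
  have h1 : ∀ j ∈ Finset.range (Nn (i + 1)),
      ((T ((j : ℤ) - Nn i) * pp i * T (Nn i - (j : ℤ)) : Rb) : Module.End K V) (D a) =
      if j = (a % (Nn (i + 1) : ℤ)).toNat then D a else 0 := by
    intro j hj
    rw [mul_apply', mul_apply', T_D, pp_D]
    have h2 : a + (Nn i - (j : ℤ)) - Nn i = a - j := by ring
    rw [h2]
    have hpos : (0 : ℤ) < Nn (i + 1) := by exact_mod_cast Nn_pos (i + 1)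
    have hj' : (j : ℤ) < Nn (i + 1) := by exact_mod_cast Finset.mem_range.mp hj
    have hm : (j : ℤ) % (Nn (i + 1) : ℤ) = j := Int.emod_eq_of_lt (by positivity) hj'
    have h3 : ((Nn (i + 1) : ℤ) ∣ a - j) ↔ j = (a % (Nn (i + 1) : ℤ)).toNat := by
      have hnn := Int.emod_nonneg a hpos.ne'
      constructor
      · intro h
        have h4 : a % (Nn (i + 1) : ℤ) = (j : ℤ) % (Nn (i + 1) : ℤ) :=
          Int.emod_eq_emod_iff_emod_sub_eq_zero.mpr (Int.emod_eq_zero_of_dvd h)
        rw [hm] at h4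
        omega
      · intro h
        have h4 : (j : ℤ) = a % (Nn (i + 1) : ℤ) := by omega
        rw [h4]
        exact Int.dvd_self_sub_emod
    by_cases h5 : (Nn (i + 1) : ℤ) ∣ a - j
    · rw [if_pos h5, if_pos (h3.mp h5), T_D]
      congr 1
      ring
    · rw [if_neg h5, if_neg (fun h => h5 (h3.mpr h)), map_zero]
  rw [Finset.sum_congr rfl h1, Finset.sum_ite_eq']
  have hpos : (0 : ℤ) < Nn (i + 1) := by exact_mod_cast Nn_pos (i + 1)
  have h6 := Int.emod_nonneg a hpos.ne'
  have h7 := Int.emod_lt_of_pos a hpos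
  rw [if_pos]
  · rfl
  · rw [Finset.mem_range]
    omega

/-- the main property of the annihilator of `D 0` -/
theorem ann (q : Rb) (h : (q : Module.End K V) (D 0) = 0) :
    ∃ n, ∀ i, n ≤ i → q * pp i = 0 := by
  obtain ⟨T', r, hr⟩ := q
  obtain ⟨n, hn⟩ := equiv_scale r
  have hr' : Phi r = T' := hr
  refine ⟨n, fun i hi => ?_⟩
  apply rb_ext
  intro j
  rw [mul_apply', pp_D]
  show _ = (0 : V)
  split_ifs with h1
  · have h2 : (Nn n : ℤ) ∣ j := by
      have h3 : (Nn n : ℤ) ∣ Nn (i + 1) := by exact_mod_cast Nn_dvd (by omega : n ≤ i + 1)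
      have h4 : (Nn n : ℤ) ∣ Nn i := by exact_mod_cast Nn_dvd hi
      have := dvd_add (dvd_trans h3 h1) h4
      rwa [sub_add_cancel] at this
    have h5 := hn j h2
    rw [hr'] at h5
    show T' (D j) = 0
    rw [h5]
    have h6 : T' (D 0) = 0 := h
    rw [h6, map_zero]
  · rw [map_zero]

theorem dat : Dat Rb pp where
  idem := pp_idem
  orth := pp_orth
  full := by
    intro i M _ _ U h
    rw [eq_top_iff]
    intro x _
    have h1 : x = ∑ j ∈ Finset.range (Nn (i + 1)),
        T ((j : ℤ) - Nn i) • pp i • T (Nn i - (j : ℤ)) • x := by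
      conv_lhs => rw [← one_smul Rb x, one_eq i, Finset.sum_smul]
      refine Finset.sum_congr rfl fun j _ => ?_
      rw [mul_smul, mul_smul]
    rw [h1]
    exact U.sum_mem fun j _ => U.smul_mem _ (h _)
  one := by
    rintro ⟨n, hn⟩
    have h1 := hn n le_rfl
    rw [one_mul] at h1
    have h2 := pp_D n (Nn n)
    rw [h1, sub_self, if_pos (dvd_zero _)] at h2
    exact D_ne _ h2.symm
  max := by
    intro q hq
    have hq0 : (q : Module.End K V) (D 0) ≠ 0 := fun h => hq (ann q h)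
    set v : V := (q : Module.End K V) (D 0) with hv
    obtain ⟨j0, hj0⟩ := Finsupp.ne_iff.mp hq0
    have hj0' : v j0 ≠ 0 := hj0
    -- a scale separating the support
    obtain ⟨n, hn⟩ : ∃ n : ℕ, ∀ j ∈ v.support, (Nn n : ℤ) ∣ j - j0 → j = j0 := by
      refine ⟨(∑ j ∈ v.support, (j - j0).natAbs) + 1, fun j hj hd => ?_⟩
      by_contra hne
      have h1 : (j - j0).natAbs ≤ ∑ j ∈ v.support, (j - j0).natAbs :=
        Finset.single_le_sum (f := fun j : ℤ => (j - j0).natAbs) (fun _ _ => Nat.zero_le _) hj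
      have h2 : (∑ j ∈ v.support, (j - j0).natAbs) + 1 ≤
          Nn ((∑ j ∈ v.support, (j - j0).natAbs) + 1) := Nn_strictMono.le_apply
      have h3 : Nn ((∑ j ∈ v.support, (j - j0).natAbs) + 1) ∣ (j - j0).natAbs := by
        rw [← Int.natCast_dvd_natCast]
        exact dvd_trans hd (Int.dvd_natAbs.mpr (dvd_refl _))
      have h4 : 0 < (j - j0).natAbs := Int.natAbs_pos.mpr (sub_ne_zero.mpr hne)
      have := Nat.le_of_dvd h4 h3
      omega
    refine ⟨el ⟨(Units.mk0 (v j0) hj0')⁻¹, 1, 0⟩ * (B n * T (-j0)), ?_⟩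
    apply ann
    have hsum : v = ∑ j ∈ v.support, v j • D j := by
      conv_lhs => rw [← Finsupp.sum_single v]
      unfold Finsupp.sum
      refine Finset.sum_congr rfl fun j _ => ?_
      rw [D, Finsupp.smul_single, smul_eq_mul, mul_one]
    have h1 : ((B n * T (-j0) : Rb) : Module.End K V) v = v j0 • D 0 := by
      conv_lhs => rw [hsum]
      rw [map_sum]
      have h2 : ∀ j ∈ v.support, ((B n * T (-j0) : Rb) : Module.End K V) (v j • D j) =
          if j = j0 then v j0 • D 0 else 0 := by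
        intro j hj
        rw [map_smul, mul_apply', T_D, B_D]
        by_cases h3 : j = j0
        · rw [if_pos h3, h3, add_neg_cancel, if_pos (dvd_zero _)]
        · rw [if_neg h3, if_neg, smul_zero]
          intro h4
          exact h3 (hn j hj (by rwa [← sub_eq_add_neg] at h4))
      rw [Finset.sum_congr rfl h2, Finset.sum_ite_eq', if_pos (Finsupp.mem_support_iff.mpr hj0')]
    have h3 : ((el ⟨(Units.mk0 (v j0) hj0')⁻¹, 1, 0⟩ * (B n * T (-j0)) * q : Rb) :
        Module.End K V) (D 0) = D 0 := by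
      rw [mul_assoc, mul_apply', mul_apply' _ q, ← hv, h1, map_smul]
      show v j0 • act ⟨(Units.mk0 (v j0) hj0')⁻¹, 1, 0⟩ (D 0) = D 0
      rw [act_D, smul_smul]
      simp only [one_zpow, mul_one, Units.val_inv_eq_inv_val, Units.val_mk0, add_zero]
      rw [mul_inv_cancel₀ hj0', one_smul]
    show (((1 : Rb) : Module.End K V) - _) (D 0) = 0
    rw [LinearMap.sub_apply]
    show D 0 - ((el ⟨(Units.mk0 (v j0) hj0')⁻¹, 1, 0⟩ * (B n * T (-j0)) * q : Rb) :
        Module.End K V) (D 0) = 0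
    rw [h3, sub_self]

end Pool.Agent.Helper26.UA
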