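import Pool.Agent.Helper26.UA.Heis

set_option autoImplicit false

namespace Pool.Agent.Helper26.UA

/-- finite rank -/
def FR (G : Type) [Group G] : Prop :=
  ∃ r : ℕ, ∀ H : Subgroup G, H.FG → ∃ s : Finset G, s.card ≤ r ∧ Subgroup.closure (s : Set G) = H

theorem fg_map {G G' : Type} [Group G] [Group G'] (f : G →* G') {H : Subgroup G} (h : H.FG) :
    (H.map f).FG := by
  classical
  obtain ⟨S, hS⟩ := h
  refine ⟨S.image f, ?_⟩
  rw [Finset.coe_image, ← MonoidHom.map_closure, hS]

theorem FR.of_injective {G G' : Type} [Group G] [Group G'] (f : G →* G')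
    (hf : Function.Injective f) (h : FR G') : FR G := by
  obtain ⟨r, hr⟩ := h
  refine ⟨r, fun H hH => ?_⟩
  obtain ⟨s, hs, hcl⟩ := hr (H.map f) (fg_map f hH)
  have hsub : (s : Set G') ⊆ Set.range f := by
    intro x hx
    have : x ∈ H.map f := by rw [← hcl]; exact Subgroup.subset_closure hx
    obtain ⟨y, _, rfl⟩ := this
    exact ⟨y, rfl⟩
  classical
  refine ⟨s.preimage f hf.injOn, ?_, ?_⟩
  · have : (s.preimage f hf.injOn).card ≤ s.card := by
      rw [← Finset.card_image_of_injective _ hf]
      exact Finset.card_le_card (by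
        intro x hx
        obtain ⟨y, hy, rfl⟩ := Finset.mem_image.mp hx
        exact Finset.mem_preimage.mp hy)
    omega
  · apply Subgroup.map_injective hf
    rw [← hcl, MonoidHom.map_closure]
    congr 1
    rw [Finset.coe_preimage]
    exact Set.image_preimage_eq_of_subset hsub

theorem FR.of_ker {G G' : Type} [Group G] [Group G'] (f : G →* G')
    (h1 : FR f.ker) (h2 : FR G') : FR G := by
  obtain ⟨r1, hr1⟩ := h1
  obtain ⟨r2, hr2⟩ := h2
  refine ⟨r2 + r1, fun H hH => ?_⟩
  classical
  obtain ⟨s, hs, hcl⟩ := hr2 (H.map f) (fg_map f hH)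
  -- lift the generators
  have hlift : ∀ x : G', ∃ y : G, x ∈ s → y ∈ H ∧ f y = x := by
    intro x
    by_cases hx : x ∈ s
    · have : x ∈ H.map f := by rw [← hcl]; exact Subgroup.subset_closure hx
      obtain ⟨y, hy, hyx⟩ := this
      exact ⟨y, fun _ => ⟨hy, hyx⟩⟩
    · exact ⟨1, fun h => absurd h hx⟩
  choose g hg using hlift
  set P : Subgroup G := Subgroup.closure ((s.image g : Finset G) : Set G) with hP
  have hPH : P ≤ H := by
    rw [hP, Subgroup.closure_le]
    intro y hy
    obtain ⟨x, hx, rfl⟩ := Finset.mem_image.mp (Finset.mem_coe.mp hy)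
    exact (hg x hx).1
  have hPmap : P.map f = H.map f := by
    apply le_antisymm (Subgroup.map_mono hPH)
    rw [← hcl, Subgroup.closure_le]
    intro x hx
    exact ⟨g x, Subgroup.subset_closure (Finset.mem_coe.mpr (Finset.mem_image_of_mem g hx)),
      (hg x hx).2⟩
  -- every element of H is an element of P times a kernel element
  have hdec : ∀ y : G, ∃ p : G, y ∈ H → p ∈ P ∧ f p = f y := by
    intro y
    by_cases hy : y ∈ H
    · have : f y ∈ P.map f := by rw [hPmap]; exact ⟨y, hy, rfl⟩
      obtain ⟨p, hp, hpy⟩ := this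
      exact ⟨p, fun _ => ⟨hp, hpy⟩⟩
    · exact ⟨1, fun h => absurd h hy⟩
  choose q hq using hdec
  obtain ⟨t, ht⟩ := hH
  have htH : ∀ y ∈ t, y ∈ H := fun y hy => by rw [← ht]; exact Subgroup.subset_closure hy
  -- kernel elements
  have hker : ∀ y : G, ∃ w : f.ker, y ∈ t → (w : G) = (q y)⁻¹ * y := by
    intro y
    by_cases hy : y ∈ t
    · refine ⟨⟨(q y)⁻¹ * y, ?_⟩, fun _ => rfl⟩
      rw [MonoidHom.mem_ker, map_mul, map_inv, (hq y (htH y hy)).2, inv_mul_cancel]
    · exact ⟨1, fun h => absurd h hy⟩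
  choose w hw using hker
  obtain ⟨u, hu, hucl⟩ := hr1 (Subgroup.closure ((t.image w : Finset f.ker) : Set f.ker))
    ⟨t.image w, rfl⟩
  have hwH : ∀ y ∈ t, (w y : G) ∈ H := by
    intro y hy
    rw [hw y hy]
    exact H.mul_mem (H.inv_mem (hPH (hq y (htH y hy)).1)) (htH y hy)
  have hucl' : Subgroup.closure ((u.image (Subtype.val) : Finset G) : Set G) =
      Subgroup.closure (((t.image w).image (Subtype.val) : Finset G) : Set G) := by
    have := congrArg (Subgroup.map f.ker.subtype) hucl
    rw [MonoidHom.map_closure, MonoidHom.map_closure] at this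
    rw [Finset.coe_image, Finset.coe_image]
    exact this
  refine ⟨s.image g ∪ u.image Subtype.val, ?_, ?_⟩
  · refine le_trans (Finset.card_union_le _ _) ?_
    have h3 : (s.image g).card ≤ s.card := Finset.card_image_le
    have h4 : (u.image (Subtype.val : f.ker → G)).card ≤ u.card := Finset.card_image_le
    omega
  · rw [Finset.coe_union, Subgroup.closure_union, hucl']
    apply le_antisymm
    · apply sup_le hPH
      rw [Subgroup.closure_le]
      intro y hy
      obtain ⟨x, hx, rfl⟩ := Finset.mem_image.mp (Finset.mem_coe.mp hy)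
      obtain ⟨y', hy', rfl⟩ := Finset.mem_image.mp hx
      exact hwH y' hy'
    · conv_lhs => rw [← ht]
      rw [Subgroup.closure_le]
      intro y hy
      have h5 : y = q y * (w y : G) := by
        rw [hw y hy]; group
      rw [SetLike.mem_coe, h5]
      apply Subgroup.mul_mem
      · exact Subgroup.mem_sup_left (hq y (htH y hy)).1
      · apply Subgroup.mem_sup_right
        apply Subgroup.subset_closure
        exact Finset.mem_coe.mpr (Finset.mem_image_of_mem _ (Finset.mem_image_of_mem _ hy))

theorem FR.of_cyclic {G : Type} [Group G] (h : ∀ H : Subgroup G, H.FG → IsCyclic H) : FR G := by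
  refine ⟨1, fun H hH => ?_⟩
  obtain ⟨g, hg⟩ := (h H hH).exists_generator
  refine ⟨{(g : G)}, by simp, ?_⟩
  rw [Finset.coe_singleton, ← Subgroup.zpowers_eq_closure]
  apply le_antisymm
  · rw [Subgroup.zpowers_le]; exact g.2
  · intro x hx
    obtain ⟨n, hn⟩ := Subgroup.mem_zpowers_iff.mp (hg ⟨x, hx⟩)
    rw [Subgroup.mem_zpowers_iff]
    exact ⟨n, by simpa using congrArg Subtype.val hn⟩

theorem FR_int : FR (Multiplicative ℤ) := FR.of_cyclic fun H _ => inferInstance

theorem FR_units : FR Kˣ := by
  apply FR.of_cyclic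
  intro H hH
  have h1 : IsMulTorsion H := by
    intro x
    rw [isOfFinOrder_iff_pow_eq_one]
    obtain ⟨m, hm, hx⟩ := exists_pow_eq_one (x : Kˣ)
    refine ⟨m, ?_, ?_⟩
    · by_contra h
      exact hm (by have : m = 0 := by omega
                   rw [this]; exact dvd_zero 3)
    · apply Subtype.ext
      simpa using hx
  have h2 : Group.FG H := (Group.fg_iff_subgroup_fg H).mpr hH
  have : Finite H := CommGroup.finite_of_fg_isMulTorsion H h1
  infer_instance

/-- the degree homomorphism -/
noncomputable def hk : HG →* Multiplicative ℤ where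
  toFun g := Multiplicative.ofAdd g.k
  map_one' := rfl
  map_mul' _ _ := rfl

theorem mem_hk {g : HG} : g ∈ hk.ker ↔ g.k = 0 := by
  rw [MonoidHom.mem_ker]
  exact Iff.rfl

/-- the second homomorphism -/
noncomputable def hc : hk.ker →* Kˣ where
  toFun g := (g : HG).c
  map_one' := rfl
  map_mul' _ _ := rfl

theorem mem_hc {g : hk.ker} : g ∈ hc.ker ↔ (g : HG).c = 1 := by
  rw [MonoidHom.mem_ker]
  exact Iff.rfl

/-- the third homomorphism -/
noncomputable def hz : hc.ker →* Kˣ where
  toFun g := (g : HG).z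
  map_one' := rfl
  map_mul' x y := by
    show (x : HG).z * (y : HG).z * (x : HG).c ^ (y : HG).k = _
    have h1 : (x : HG).c = 1 := mem_hc.mp x.2
    rw [h1, one_zpow, mul_one]

theorem hz_inj : Function.Injective hz := by
  intro x y hxy
  apply Subtype.ext
  apply Subtype.ext
  have hx1 : (x : HG).c = 1 := mem_hc.mp x.2
  have hy1 : (y : HG).c = 1 := mem_hc.mp y.2
  have hx2 : (x : HG).k = 0 := mem_hk.mp x.1.2
  have hy2 : (y : HG).k = 0 := mem_hk.mp y.1.2
  apply HG.ext
  · exact hxy
  · rw [hx1, hy1]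
  · rw [hx2, hy2]

theorem FR_HG : FR HG :=
  FR.of_ker hk (FR.of_ker hc (FR.of_injective hz hz_inj FR_units) FR_units) FR_int

theorem solvable_HG : Group.IsSolvable HG := by
  have h1 : Group.IsSolvable hk.ker := by
    have hcomm : ∀ a b : hk.ker, a * b = b * a := by
      intro a b
      apply Subtype.ext
      have ha : (a : HG).k = 0 := mem_hk.mp a.2
      have hb : (b : HG).k = 0 := mem_hk.mp b.2
      show (a : HG) * (b : HG) = (b : HG) * (a : HG)
      apply HG.ext
      · rw [HG.mul_z, HG.mul_z, ha, hb, zpow_zero, zpow_zero, mul_one, mul_one, mul_comm]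
      · rw [HG.mul_c, HG.mul_c, mul_comm]
      · rw [HG.mul_k, HG.mul_k, add_comm]
    exact Group.isSolvable_of_comm hcomm
  exact Group.isSolvable_of_ker_le_range (hk.ker.subtype) hk (by
    rw [Subgroup.range_subtype])

end Pool.Agent.Helper26.UA
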