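import Pool.Agent.Helper26.UA.DatInst
import Pool.Agent.Helper26.UA.Rank

set_option autoImplicit false

namespace Pool.Agent.Helper26.UA

/-- There is an uncountable Artinian module over the integral group ring of `HG`. -/
theorem exists_module : ∃ (M : Type) (_ : AddCommGroup M) (_ : Module (MonoidAlgebra ℤ HG) M),
    IsArtinian (MonoidAlgebra ℤ HG) M ∧ ¬ Countable M := by
  obtain ⟨M, _, _, hA, hM⟩ := exists_uncountable_artinian dat
  let φ : MonoidAlgebra ℤ HG →+* Rb :=
    { toFun := fun r => ⟨Phi r, r, rfl⟩
      map_one' := Subtype.ext (map_one Phi)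
      map_mul' := fun a b => Subtype.ext (map_mul Phi a b)
      map_zero' := Subtype.ext (map_zero Phi)
      map_add' := fun a b => Subtype.ext (map_add Phi a b) }
  have hφ : Function.Surjective φ := by
    rintro ⟨T', r, hr⟩
    exact ⟨r, Subtype.ext hr⟩
  letI : Module (MonoidAlgebra ℤ HG) M := Module.compHom M φ
  have hsmul : ∀ (r : MonoidAlgebra ℤ HG) (x : M), r • x = φ r • x := fun _ _ => rfl
  refine ⟨M, inferInstance, inferInstance, ?_, hM⟩
  let f : Submodule (MonoidAlgebra ℤ HG) M ↪o Submodule Rb M :=
    { toFun := fun U =>
        { carrier := U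
          add_mem' := fun ha hb => U.add_mem ha hb
          zero_mem' := U.zero_mem
          smul_mem' := by
            intro c x hx
            obtain ⟨r, rfl⟩ := hφ c
            exact U.smul_mem r hx }
      inj' := by
        intro U V h
        ext x
        have := congrArg (fun W : Submodule Rb M => x ∈ W) h
        exact iff_of_eq this
      map_rel_iff' := Iff.rfl }
  exact f.wellFoundedLT

end Pool.Agent.Helper26.UA
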