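import Mathlib

/-!
General theorem: a countable ring `R` with orthogonal idempotents `p i`, all full, such that
`L = {q : q p_i = 0 for almost all i}` is a maximal left ideal, has an uncountable Artinian
module. The module is a maximal well-ordered-uniserial submodule of an injective module.
-/

set_option autoImplicit false

namespace Pool.Agent.Helper26.UA

universe u

variable {R : Type} [Ring R] {E : Type} [AddCommGroup E] [Module R E]

/-- Every nonempty set of submodules of `N` has a least element. -/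
def Nice (N : Submodule R E) : Prop :=
  ∀ S : Set (Submodule R E), S.Nonempty → (∀ U ∈ S, U ≤ N) → ∃ U ∈ S, ∀ V ∈ S, U ≤ V

theorem Nice.total {N : Submodule R E} (h : Nice N) {U V : Submodule R E} (hU : U ≤ N)
    (hV : V ≤ N) : U ≤ V ∨ V ≤ U := by
  obtain ⟨W, hW, hW2⟩ := h {U, V} ⟨U, by simp⟩ (by
    intro W hW
    rcases hW with rfl | hW
    · exact hU
    · rw [Set.mem_singleton_iff] at hW
      rw [hW]; exact hV)
  rcases hW with rfl | hW
  · left; exact hW2 V (by simp)
  · rw [Set.mem_singleton_iff] at hW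
    right
    rw [← hW]
    exact hW2 U (by simp)

theorem Nice.isArtinian {N : Submodule R E} (h : Nice N) : IsArtinian R N := by
  rw [isArtinian_iff]
  rw [WellFounded.wellFounded_iff_has_min]
  intro s hs
  obtain ⟨U, hU, hU2⟩ := h ((fun W : Submodule R N => W.map N.subtype) '' s) (hs.image _) (by
    rintro U ⟨W, _, rfl⟩
    exact Submodule.map_subtype_le N W)
  obtain ⟨W, hW, rfl⟩ := hU
  refine ⟨W, hW, fun V hV hlt => ?_⟩
  have h1 := hU2 _ ⟨V, hV, rfl⟩
  have h2 : W ≤ V := (Submodule.map_le_map_iff_of_injective N.injective_subtype W V).mp h1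
  exact absurd hlt (not_lt_of_ge h2)

/-- The union of a chain of nice submodules is nice. -/
theorem nice_sSup (c : Set (Submodule R E)) (hc : IsChain (· ≤ ·) c) (hne : c.Nonempty)
    (hn : ∀ N ∈ c, Nice N) : Nice (sSup c) := by
  have hdir : DirectedOn (· ≤ ·) c := hc.directedOn
  have key : ∀ U : Submodule R E, U ≤ sSup c → U ≠ sSup c → ∃ N ∈ c, U ≤ N := by
    intro U hU hne'
    by_contra hcon
    push Not at hcon
    have : ∃ N ∈ c, ¬ N ≤ U := by
      by_contra hcon2
      push Not at hcon2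
      exact hne' (le_antisymm hU (sSup_le hcon2))
    obtain ⟨N, hN, hNU⟩ := this
    apply hcon N hN
    intro x hx
    obtain ⟨N2, hN2, hx2⟩ := (Submodule.mem_sSup_of_directed hne hdir).mp (hU hx)
    obtain ⟨N3, hN3, h13, h23⟩ := hdir N hN N2 hN2
    rcases (hn N3 hN3).total (inf_le_right : U ⊓ N3 ≤ N3) h13 with h | h
    · exact h ⟨hx, h23 hx2⟩
    · exact absurd (le_trans h inf_le_left) hNU
  intro S hS hSN
  by_cases hall : ∀ U ∈ S, U = sSup c
  · obtain ⟨U, hU⟩ := hS
    refine ⟨U, hU, fun V hV => ?_⟩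
    rw [hall U hU, hall V hV]
  · push Not at hall
    obtain ⟨U, hU, hUne⟩ := hall
    obtain ⟨N, hN, hUN⟩ := key U (hSN U hU) hUne
    obtain ⟨V0, hV0, hV0min⟩ := hn N hN {V | V ∈ S ∧ V ≤ N} ⟨U, hU, hUN⟩ (fun V hV => hV.2)
    refine ⟨V0, hV0.1, fun V hV => ?_⟩
    by_cases hVN : V ≤ N
    · exact hV0min V ⟨hV, hVN⟩
    · have hNV : N ≤ V := by
        by_cases hVe : V = sSup c
        · rw [hVe]; exact le_sSup hN
        · obtain ⟨N2, hN2, hVN2⟩ := key V (hSN V hV) hVe
          obtain ⟨N3, hN3, h13, h23⟩ := hdir N hN N2 hN2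
          rcases (hn N3 hN3).total h13 (le_trans hVN2 h23) with h | h
          · exact h
          · exact absurd h hVN
      exact le_trans hV0.2 hNV

/-- A countable nice submodule has countably many proper submodules. -/
theorem countable_proper {N : Submodule R E} (h : Nice N) (hc : Countable N) :
    Countable {U : Submodule R E // U ≤ N ∧ U ≠ N} := by
  have hex : ∀ U : {U : Submodule R E // U ≤ N ∧ U ≠ N},
      ∃ x : N, (x : E) ∉ U.1 ∧ ∀ V : Submodule R E, V ≤ N → U.1 < V → (x : E) ∈ V := by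
    intro U
    obtain ⟨W, hW, hWmin⟩ := h {V | V ≤ N ∧ U.1 < V}
      ⟨N, le_refl _, lt_of_le_of_ne U.2.1 U.2.2⟩ (fun V hV => hV.1)
    obtain ⟨x, hxW, hxU⟩ := SetLike.exists_of_lt hW.2
    exact ⟨⟨x, hW.1 hxW⟩, hxU, fun V hV hUV => hWmin V ⟨hV, hUV⟩ hxW⟩
  choose f hf1 hf2 using hex
  have hinj : Function.Injective f := by
    intro U V hUV
    rcases h.total U.2.1 V.2.1 with h1 | h1
    · rcases eq_or_lt_of_le h1 with h2 | h2
      · exact Subtype.ext h2
      · exact absurd (hUV ▸ hf2 U V.1 V.2.1 h2) (hf1 V)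
    · rcases eq_or_lt_of_le h1 with h2 | h2
      · exact (Subtype.ext h2).symm
      · exact absurd (hUV ▸ hf2 V U.1 U.2.1 h2) (hf1 U)
  exact hinj.countable

/-- The data on the ring. -/
structure Dat (R : Type) [Ring R] (p : ℕ → R) : Prop where
  idem : ∀ i, p i * p i = p i
  orth : ∀ i j, i ≠ j → p i * p j = 0
  full : ∀ i, ∀ (M : Type) [AddCommGroup M] [Module R M], ∀ U : Submodule R M,
    (∀ x : M, p i • x ∈ U) → U = ⊤
  one : ¬ ∃ n, ∀ i, n ≤ i → (1 : R) * p i = 0
  max : ∀ q : R, (¬ ∃ n, ∀ i, n ≤ i → q * p i = 0) →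
    ∃ a : R, ∃ n, ∀ i, n ≤ i → (1 - a * q) * p i = 0

/-- The left ideal of all `q` with `q p_i = 0` for almost all `i`. -/
def Lid (p : ℕ → R) : Ideal R where
  carrier := {q | ∃ n, ∀ i, n ≤ i → q * p i = 0}
  add_mem' := by
    rintro a b ⟨n, hn⟩ ⟨m, hm⟩
    refine ⟨max n m, fun i hi => ?_⟩
    rw [add_mul, hn i (le_trans (le_max_left _ _) hi), hm i (le_trans (le_max_right _ _) hi),
      add_zero]
  zero_mem' := ⟨0, fun i _ => zero_mul _⟩
  smul_mem' := by
    rintro c x ⟨n, hn⟩
    refine ⟨n, fun i hi => ?_⟩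
    rw [smul_eq_mul, mul_assoc, hn i hi, mul_zero]

theorem mem_Lid (p : ℕ → R) (q : R) : q ∈ Lid p ↔ ∃ n, ∀ i, n ≤ i → q * p i = 0 := Iff.rfl

/-- The homomorphism `q ↦ ∑ q m_i`. -/
noncomputable def phi (p : ℕ → R) (m : ℕ → E) (hm : ∀ i, p i • m i = m i) : Lid p →ₗ[R] E where
  toFun q := ∑ᶠ i, (q : R) • m i
  map_add' := by
    rintro ⟨a, n, hn⟩ ⟨b, l, hl⟩
    have h : ∀ (q : R) (n : ℕ), (∀ i, n ≤ i → q * p i = 0) →
        (Function.support fun i => q • m i).Finite := by
      intro q n hn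
      refine (Set.finite_lt_nat n).subset fun i hi => ?_
      by_contra hcon
      have hcon' : n ≤ i := not_lt.mp hcon
      apply hi
      show q • m i = 0
      rw [← hm i, smul_smul, hn i hcon', zero_smul]
    show ∑ᶠ i, (a + b) • m i = _
    simp only [add_smul]
    exact finsum_add_distrib (h a n hn) (h b l hl)
  map_smul' := by
    rintro r ⟨a, n, hn⟩
    have h : ∀ (q : R) (n : ℕ), (∀ i, n ≤ i → q * p i = 0) →
        (Function.support fun i => q • m i).Finite := by
      intro q n hn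
      refine (Set.finite_lt_nat n).subset fun i hi => ?_
      by_contra hcon
      have hcon' : n ≤ i := not_lt.mp hcon
      apply hi
      show q • m i = 0
      rw [← hm i, smul_smul, hn i hcon', zero_smul]
    show ∑ᶠ i, (r • a) • m i = r • ∑ᶠ i, a • m i
    simp only [smul_eq_mul, mul_smul]
    exact ((smulAddHom R E r).map_finsum (h a n hn)).symm

theorem phi_mem {p : ℕ → R} {m : ℕ → E} {hm : ∀ i, p i • m i = m i} {N : Submodule R E}
    (hN : ∀ i, m i ∈ N) (q : Lid p) : phi p m hm q ∈ N := by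
  show ∑ᶠ i, (q : R) • m i ∈ N
  exact finsum_induction (· ∈ N) N.zero_mem (fun _ _ => N.add_mem)
    (fun i => N.smul_mem _ (hN i))

theorem p_mem {p : ℕ → R} (hp : Dat R p) (j : ℕ) : p j ∈ Lid p :=
  ⟨j + 1, fun i hi => hp.orth j i (by omega)⟩

theorem phi_p {p : ℕ → R} (hp : Dat R p) {m : ℕ → E} {hm : ∀ i, p i • m i = m i} (j : ℕ) :
    phi p m hm ⟨p j, p_mem hp j⟩ = m j := by
  show ∑ᶠ i, p j • m i = m j
  rw [finsum_eq_single _ j]
  · exact hm j
  · intro i hi
    rw [← hm i, smul_smul, hp.orth j i (Ne.symm hi), zero_smul]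

/-- The extension step. -/
theorem extend {p : ℕ → R} (hp : Dat R p) (hE : Module.Baer R E) {N : Submodule R E}
    (h : Nice N) (hc : Countable N) (hne : N ≠ ⊥) :
    ∃ N' : Submodule R E, N < N' ∧ Nice N' := by
  have hcp := countable_proper h hc
  have : Nonempty ({U : Submodule R E // U ≤ N ∧ U ≠ N} × N) :=
    ⟨⟨⟨⊥, bot_le, hne.symm⟩, 0⟩⟩
  obtain ⟨e, he⟩ := exists_surjective_nat ({U : Submodule R E // U ≤ N ∧ U ≠ N} × N)
  have hex : ∀ i : ℕ, ∃ x : E, x ∈ N ∧ p i • x = x ∧ x - p i • ((e i).2 : E) ∉ (e i).1.1 := by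
    intro i
    by_cases h1 : p i • ((e i).2 : E) ∈ (e i).1.1
    · have h2 : ∃ x : N, p i • (x : E) ∉ (e i).1.1 := by
        by_contra hcon
        push Not at hcon
        have h3 := hp.full i N ((e i).1.1.comap N.subtype) hcon
        apply (e i).1.2.2
        apply le_antisymm (e i).1.2.1
        intro x hx
        have : (⟨x, hx⟩ : N) ∈ (e i).1.1.comap N.subtype := by rw [h3]; trivial
        exact this
      obtain ⟨x, hx⟩ := h2
      refine ⟨p i • (x : E), N.smul_mem _ x.2, by rw [smul_smul, hp.idem], fun hcon => hx ?_⟩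
      have := (e i).1.1.add_mem hcon h1
      rwa [sub_add_cancel] at this
    · refine ⟨0, N.zero_mem, smul_zero _, fun hcon => h1 ?_⟩
      have := (e i).1.1.neg_mem hcon
      rwa [zero_sub, neg_neg] at this
  choose m hmN hm hmU using hex
  obtain ⟨g', hg'⟩ := hE (Lid p) (phi p m hm)
  set g : E := g' 1 with hg
  have hgq : ∀ q ∈ Lid p, q • g ∈ N := by
    intro q hq
    have : q • g = phi p m hm ⟨q, hq⟩ := by
      rw [hg, ← map_smul, smul_eq_mul, mul_one]
      exact hg' q hq
    rw [this]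
    exact phi_mem hmN _
  have hgp : ∀ i, p i • g = m i := by
    intro i
    have : p i • g = phi p m hm ⟨p i, p_mem hp i⟩ := by
      rw [hg, ← map_smul, smul_eq_mul, mul_one]
      exact hg' _ _
    rw [this, phi_p hp]
  -- the key property
  have hkey : ∀ U : Submodule R E, U ≤ N → U ≠ N → ∀ x ∈ N,
      ¬ (∀ i, p i • (g - x) ∈ U) := by
    intro U hU hUne x hx hcon
    obtain ⟨i, hi⟩ := he (⟨U, hU, hUne⟩, ⟨x, hx⟩)
    have h1 := hmU i
    have h2 := hcon i
    rw [hi] at h1
    rw [smul_sub, hgp] at h2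
    exact h1 h2
  have hgN : g ∉ N := by
    intro hcon
    apply hkey ⊥ bot_le hne.symm g hcon
    intro i
    rw [sub_self, smul_zero]
    exact Submodule.zero_mem _
  have hdich : ∀ U : Submodule R E, U ≤ N ⊔ Submodule.span R {g} → U ≤ N ∨
      U = N ⊔ Submodule.span R {g} := by
    intro U hU
    by_cases hUN : U ≤ N
    · left; exact hUN
    right
    obtain ⟨u, huU, huN⟩ := SetLike.not_le_iff_exists.mp hUN
    obtain ⟨n, hn, y, hy, rfl⟩ := Submodule.mem_sup.mp (hU huU)
    obtain ⟨q, rfl⟩ := Submodule.mem_span_singleton.mp hy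
    have hq : q ∉ Lid p := fun hq => huN (N.add_mem hn (hgq q hq))
    obtain ⟨a, ha⟩ := hp.max q hq
    have hl : (1 - a * q) • g ∈ N := hgq _ ha
    set x : E := (1 - a * q) • g - a • n with hx
    have hxN : x ∈ N := N.sub_mem hl (N.smul_mem _ hn)
    have hgx : g - x ∈ U := by
      have h1 : g - x = a • (n + q • g) := by
        rw [hx, sub_smul, one_smul, smul_add, smul_smul]
        abel
      rw [h1]
      exact U.smul_mem _ huU
    have hNU : N ≤ U := by
      by_contra hcon
      apply hkey (U ⊓ N) inf_le_right (fun h => hcon (by rw [← h]; exact inf_le_left)) x hxN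
      intro i
      refine ⟨U.smul_mem _ hgx, ?_⟩
      rw [smul_sub, hgp]
      exact N.sub_mem (hmN i) (N.smul_mem _ hxN)
    have hgU : g ∈ U := by
      have := U.add_mem hgx (hNU hxN)
      rwa [sub_add_cancel] at this
    apply le_antisymm hU
    apply sup_le hNU
    rw [Submodule.span_le]
    intro y hy
    rw [Set.mem_singleton_iff] at hy
    rw [hy]
    exact hgU
  refine ⟨N ⊔ Submodule.span R {g}, ?_, ?_⟩
  · apply lt_of_le_of_ne le_sup_left
    intro hcon
    apply hgN
    rw [hcon]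
    exact Submodule.mem_sup_right (Submodule.mem_span_singleton_self g)
  · intro S hS hSN
    by_cases hall : ∀ U ∈ S, U = N ⊔ Submodule.span R {g}
    · obtain ⟨U, hU⟩ := hS
      refine ⟨U, hU, fun V hV => ?_⟩
      rw [hall U hU, hall V hV]
    · push Not at hall
      obtain ⟨U, hU, hUne⟩ := hall
      have hUN : U ≤ N := (hdich U (hSN U hU)).resolve_right hUne
      obtain ⟨V0, hV0, hV0min⟩ := h {V | V ∈ S ∧ V ≤ N} ⟨U, hU, hUN⟩ (fun V hV => hV.2)
      refine ⟨V0, hV0.1, fun V hV => ?_⟩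
      rcases hdich V (hSN V hV) with h1 | h1
      · exact hV0min V ⟨hV, h1⟩
      · rw [h1]
        exact le_trans hV0.2 le_sup_left

/-- A simple submodule is nice. -/
theorem nice_of_simple {N : Submodule R E} (h : IsSimpleModule R N) : Nice N := by
  have hd : ∀ U : Submodule R E, U ≤ N → U = ⊥ ∨ U = N := by
    intro U hU
    rcases eq_bot_or_eq_top (U.comap N.subtype) with h1 | h1
    · left
      rw [eq_bot_iff]
      intro x hx
      have : (⟨x, hU hx⟩ : N) ∈ U.comap N.subtype := hx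
      rw [h1, Submodule.mem_bot] at this
      rw [Submodule.mem_bot]
      exact congrArg Subtype.val this
    · right
      apply le_antisymm hU
      intro x hx
      have : (⟨x, hx⟩ : N) ∈ U.comap N.subtype := by rw [h1]; trivial
      exact this
  intro S hS hSN
  by_cases hb : ⊥ ∈ S
  · exact ⟨⊥, hb, fun V _ => bot_le⟩
  · obtain ⟨U, hU⟩ := hS
    refine ⟨U, hU, fun V hV => ?_⟩
    rcases hd U (hSN U hU) with h1 | h1
    · exact absurd (h1 ▸ hU) hb
    · rcases hd V (hSN V hV) with h2 | h2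
      · exact absurd (h2 ▸ hV) hb
      · rw [h1, h2]

/-- Main general theorem. -/
theorem exists_uncountable_artinian {R : Type} [Ring R] {p : ℕ → R} (hp : Dat R p) :
    ∃ (M : Type) (_ : AddCommGroup M) (_ : Module R M), IsArtinian R M ∧ ¬ Countable M := by
  -- a simple module embedded in an injective module
  have hL : Lid p ≠ ⊤ := by
    rw [Ideal.ne_top_iff_one]
    intro h
    exact hp.one h
  have hmax : IsCoatom (Lid p) := by
    refine ⟨hL, fun J hJ => ?_⟩
    obtain ⟨q, hqJ, hqL⟩ := SetLike.exists_of_lt hJ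
    obtain ⟨a, ha⟩ := hp.max q hqL
    rw [Ideal.eq_top_iff_one]
    have h1 : (1 - a * q) ∈ J := hJ.le ha
    have h2 : a * q ∈ J := J.smul_mem a hqJ
    have := J.add_mem h1 h2
    rwa [sub_add_cancel] at this
  have hsimple : IsSimpleModule R (R ⧸ Lid p) := isSimpleModule_iff_isCoatom.mpr hmax
  obtain ⟨I⟩ := CategoryTheory.EnoughInjectives.presentation (ModuleCat.of R (R ⧸ Lid p))
  have hinj : Module.Injective R I.J :=
    (Module.injective_iff_injective_object R I.J).mpr I.injective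
  have hE : Module.Baer R I.J := Module.Baer.of_injective hinj
  have hf : Function.Injective I.f.hom := (ModuleCat.mono_iff_injective I.f).mp I.mono
  set S0 : Submodule R I.J := LinearMap.range I.f.hom with hS0
  have e : (R ⧸ Lid p) ≃ₗ[R] S0 := LinearEquiv.ofInjective I.f.hom hf
  have hS0s : IsSimpleModule R S0 := IsSimpleModule.congr e.symm
  have hS0n : Nice S0 := nice_of_simple hS0s
  have hS0ne : S0 ≠ ⊥ := by
    intro h
    have h1 : Nontrivial S0 := IsSimpleModule.nontrivial R S0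
    rw [h] at h1
    exact not_nontrivial _ h1
  by_contra hcon
  push Not at hcon
  obtain ⟨N, hN, hNmax⟩ := zorn_le_nonempty₀ {N : Submodule R I.J | Nice N ∧ S0 ≤ N} (by
    intro c hc hchain y hy
    refine ⟨sSup c, ⟨nice_sSup c hchain ⟨y, hy⟩ (fun N hN => (hc hN).1),
      le_trans (hc hy).2 (le_sSup hy)⟩, fun z hz => le_sSup hz⟩) S0 ⟨hS0n, le_refl _⟩
  have hNn : Nice N := hNmax.prop.1
  have hNc : Countable N := hcon N _ _ hNn.isArtinian
  have hNne : N ≠ ⊥ := fun h => hS0ne (le_bot_iff.mp (h ▸ hNmax.prop.2))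
  obtain ⟨N', hlt, hN'⟩ := extend hp hE hNn hNc hNne
  have := hNmax.le_of_ge ⟨hN', le_trans hNmax.prop.2 hlt.le⟩ hlt.le
  exact absurd hlt (not_lt_of_ge this)

end Pool.Agent.Helper26.UA
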